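import Pool.Agent.X32.Uni.Cyc

/-!
# Primes `p` for which exactly the prescribed cyclotomic values `Φ_m(p)` are almost primes

Let `b ≠ 0` and `r_1, ..., r_k ≥ 1` be such that `x (x + b) ∏ Φ_{r_l}(x)` has no fixed prime divisor, and let `M`, `L`
be given. There are `C`, `t` and `κ > 0` such that, for all large `X`, every interval `(A, B]` with `B ≤ X`,
`B - A ≥ θ X` contains at least `κ (B - A) V` primes `p > X ^ (1 / t)` such that
* `p + b` is a product of at most two primes `> X ^ (1 / 9)`,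
* `Φ_m(p)` is a product of at most `t φ(m)` primes `> X ^ (1 / t)` for `m = r_1, ..., r_k`,
* `Φ_m(p)` has a prime factor `≤ C` for ALL other `1 ≤ m ≤ M`, and so has `p + h` for all `0 < |h| ≤ L`, `h ≠ b`.
Here `V = ∏_{q ≤ X} (1 - ω(q) / q)`, `ω(q)` the number of the zeros of `x (x + b) ∏ Φ_{r_l}(x)` modulo `q`; this is
the conjectured order of magnitude of the number of the corresponding primes. For every `s`, `δ > 0` and every
colouring with `ρ` colours all but `δ (B - A) V` of these primes are covered by pairwise disjoint monochromatic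
progressions of `s` such primes with differences `≤ (log X) ^ c`.

For `k = 1`, `r_1 = 3`: `Φ_3(p) = p² + p + 1` is almost prime, but none of the other `Φ_m(p)`, `m ≤ M`; here `b = 2`
is possible.
-/

set_option autoImplicit false

namespace Pool.Agent.Results.MP_82233c_nt.ExactCyclotomic

open Finset
open Polynomial (cyclotomic)

variable {k : ℕ}

/-- `|v| > 1`, and `|v|` is a product of at most `r` primes, all of them larger than `y` -/
def Almost (r : ℕ) (y : ℝ) (v : ℤ) : Prop :=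
  1 < |v| ∧ v.natAbs.primeFactorsList.length ≤ r ∧ ∀ q : ℕ, q.Prime → (q : ℤ) ∣ v → y < q

/-- `ω(q)`: the number of the zeros of `x (x + b) ∏ Φ_{r_l}(x)` modulo `q` -/
noncomputable def omega (b : ℤ) (r : Fin k → ℕ) (p : ℕ) : ℕ :=
  ((range p).filter (fun x : ℕ => (p : ℤ) ∣ (x : ℤ) * (x + b) * ∏ l, (cyclotomic (r l) ℤ).eval (x : ℤ))).card

/-- the product of `1 - ω(q) / q` over the primes `q ≤ X` -/
noncomputable def V (b : ℤ) (r : Fin k → ℕ) (X : ℕ) : ℝ :=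
  ∏ p ∈ (Icc 1 X).filter Nat.Prime, (1 - (omega b r p : ℝ) / p)

open Classical in
/-- the primes `n` of `(A, B]` described above -/
noncomputable def Good (b : ℤ) (r : Fin k → ℕ) (M L C t X A B : ℕ) : Finset ℕ :=
  (Ioc A B).filter (fun n : ℕ => n.Prime ∧ (X : ℝ) ^ (1 / (t : ℝ)) < n ∧
    Almost 2 ((X : ℝ) ^ (1 / 9 : ℝ)) (n + b) ∧ Almost t ((X : ℝ) ^ (1 / (t : ℝ))) (n + b) ∧
    (∀ l, Almost (t * (r l).totient) ((X : ℝ) ^ (1 / (t : ℝ))) ((cyclotomic (r l) ℤ).eval (n : ℤ))) ∧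
    (∀ m : ℕ, 1 ≤ m → m ≤ M → (∀ l, r l ≠ m) →
      ∃ p : ℕ, p.Prime ∧ p ≤ C ∧ (p : ℤ) ∣ (cyclotomic m ℤ).eval (n : ℤ)) ∧
    ∀ h : ℤ, h ≠ 0 → h ≠ b → |h| ≤ L → ∃ p : ℕ, p.Prime ∧ p ≤ C ∧ (p : ℤ) ∣ (n : ℤ) + h)

/-- the terms `a, a + b, ..., a + (s - 1) b` of the progression `z = (a, b)` -/
def terms (s : ℕ) (z : ℕ × ℕ) : Finset ℕ := (range s).image (fun i => z.1 + i * z.2)

theorem result (b : ℤ) (hb : b ≠ 0) (r : Fin k → ℕ) (hr : ∀ l, 1 ≤ r l)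
    (hloc : ∀ p : ℕ, p.Prime → ∃ x : ℤ, ¬ (p : ℤ) ∣ x * (x + b) * ∏ l, (cyclotomic (r l) ℤ).eval x) (M L : ℕ) :
    ∃ C t : ℕ, 1 ≤ t ∧ ∃ κ : ℝ, 0 < κ ∧ ∀ (s ρ : ℕ) (θ δ : ℝ), 1 ≤ s → 0 < θ → 0 < δ → ∃ c X₀ : ℕ, ∀ X : ℕ, X₀ ≤ X →
      κ / Real.log X ^ (∑ l, (r l).totient + 2) ≤ V b r X ∧ ∀ A B : ℕ, B ≤ X → θ * X ≤ (B : ℝ) - A →
        κ * ((B : ℝ) - A) * V b r X ≤ ((Good b r M L C t X A B).card : ℝ) ∧
        ∀ χ : ℕ → Fin ρ, ∃ P : Finset (ℕ × ℕ),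
          (∀ z ∈ P, 1 ≤ z.2 ∧ (z.2 : ℝ) ≤ Real.log X ^ c ∧
            ∀ l < s, z.1 + l * z.2 ∈ Good b r M L C t X A B ∧ χ (z.1 + l * z.2) = χ z.1) ∧
          (P : Set (ℕ × ℕ)).PairwiseDisjoint (terms s) ∧
          (((Good b r M L C t X A B \ P.biUnion (terms s)).card : ℕ) : ℝ) ≤ δ * ((B : ℝ) - A) * V b r X :=
  Pool.Agent.X32.Uni.cycP b hb r hr hloc M L

end Pool.Agent.Results.MP_82233c_nt.ExactCyclotomic
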