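import Mathlib
import Pool.Agent.X262.ProgP
import Pool.Agent.TH464.PO.QuadAP

set_option autoImplicit false

/-!
# Almost primes `n` with `n ^ 2 + n + 1` almost prime in arithmetic progressions
-/

namespace Pool.Agent.Results.MP_82233c_nt.GapLawsInProgressions

open Finset Filter

/-- all prime factors of `n` and of `n ^ 2 + n + 1` are larger than `X ^ (1 / r)` -/
def Good (X r n : ℕ) : Prop :=
  ∀ p : ℕ, p.Prime → p ∣ n * (n ^ 2 + n + 1) → (X : ℝ) ^ (1 / (r : ℝ)) < p

/-- the number of the zeros of `x (x ^ 2 + x + 1)` modulo `p` -/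
def roots (p : ℕ) : ℕ := ((range p).filter (fun x : ℕ => p ∣ x * (x ^ 2 + x + 1))).card

/-- the proportion of the classes `a` modulo `q` with `a (a ^ 2 + a + 1)` prime to `q` -/
noncomputable def prop (q : ℕ) : ℝ := ∏ p ∈ q.primeFactors, (1 - (roots p : ℝ) / p)

/-- the expected density of the good integers in these classes -/
noncomputable def density (X r q : ℕ) : ℝ :=
  ∏ p ∈ (Icc 1 ⌊(X : ℝ) ^ (1 / (r : ℝ))⌋₊).filter (fun p => p.Prime ∧ ¬ p ∣ q),
    (1 - (roots p : ℝ) / p)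

/-- the truncated constant of the Bateman-Horn conjecture -/
noncomputable def series (X r : ℕ) : ℝ :=
  ∏ p ∈ (Icc 1 ⌊(X : ℝ) ^ (1 / (r : ℝ))⌋₊).filter Nat.Prime,
    (1 - (roots p : ℝ) / p) / (1 - 1 / (p : ℝ)) ^ 2

/-- the probability that a Poisson variable of mean `x` is `j` -/
noncomputable def poisson (x : ℝ) (j : ℕ) : ℝ := Real.exp (-x) * x ^ j / j.factorial

open Classical in
/-- the number of the elements of `S` in `(u, v]` -/
noncomputable def count (S : Set ℕ) (u v : ℕ) : ℕ := ((Ioc u v).filter (fun n => n ∈ S)).card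

/-- All intervals `(m - s, m + t]` with `s, t ≤ Y` of length at least `L / c` contain the right order
of elements of `S`. -/
def RightOrder (S : Set ℕ) (L c : ℝ) (Y m : ℕ) : Prop :=
  ∀ s t : ℕ, s ≤ Y → t ≤ Y → L ≤ c * (s + t) →
    c * (s + t) / L ≤ count S (m - s) (m + t) ∧ (count S (m - s) (m + t) : ℝ) ≤ (s + t) / (c * L)

/-- Up to `δ`, `S` has a constant density `lam / L` (`c ≤ lam ≤ 1 / c`) on both sides of `m` up to the
distance `2 ^ j`. -/
def ConstantDensity (S : Set ℕ) (L c δ : ℝ) (m j : ℕ) : Prop :=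
  ∃ lam : ℝ, c ≤ lam ∧ lam ≤ 1 / c ∧ ∀ s t : ℕ, s ≤ 2 ^ j → t ≤ 2 ^ j →
    |(count S (m - s) (m + t) : ℝ) - lam * (s + t) / L| ≤ δ * 2 ^ j / L

open Classical in
/-- the number of the scales `L ≤ 2 ^ j ≤ Y` without this property -/
noncomputable def badScales (S : Set ℕ) (L c δ : ℝ) (Y m : ℕ) : ℕ :=
  ((Finset.range (Nat.log 2 Y + 1)).filter (fun j => L ≤ (2 : ℝ) ^ j ∧
    ¬ ConstantDensity S L c δ m j)).card

/-- The elements of `S` that are not regular points of `S`. -/
def Irregular (S : Set ℕ) (L c δ : ℝ) (B Y : ℕ) : Set ℕ :=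
  {m | m ∈ S ∧ ¬ (RightOrder S L c Y m ∧ badScales S L c δ Y m ≤ B)}

open Pool.Agent.Y879.AP Pool.Agent.W123.RP Pool.Agent.H373R2.T7 Pool.Agent.TH464.PO
open Pool.Agent.Y879.GL Pool.Agent.W123.RU Pool.Agent.W123.RU.Poly Pool.Agent.X262.ProgP
open Pool.Agent.TH464.PW Polynomial

/-- the polynomials -/
noncomputable def F : Fin 2 → ℤ[X] := ![X, quad 1 1 1]

lemma Q_iff (p m : ℕ) (hp : p.Prime) : Q F p m ↔ p ∣ m * (m ^ 2 + m + 1) := by
  unfold Q F
  rw [Fin.exists_fin_two, hp.dvd_mul]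
  simp only [Matrix.cons_val_zero, Matrix.cons_val_one, eval_X, quad_eval]
  rw [show (1 : ℤ) * (m : ℤ) ^ 2 + 1 * m + 1 = ((m ^ 2 + m + 1 : ℕ) : ℤ) by push_cast; ring]
  rw [Int.natCast_dvd_natCast, Int.natCast_dvd_natCast]

lemma not_square : ¬ IsSquare ((1 : ℤ) ^ 2 - 4 * 1 * 1) := by
  rintro ⟨x, hx⟩
  nlinarith

lemma degq : (quad 1 1 1).natDegree = 2 := quad_deg 1 1 1 one_ne_zero

lemma irrq : Irreducible (quad 1 1 1) := quad_irr 1 1 1 one_ne_zero (fun p hp h => by
    have h1 : (p : ℤ) ∣ 1 := h.1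
    exact hp.one_lt.ne' (Nat.dvd_one.1 (by exact_mod_cast h1))) not_square

lemma sysF : Sys F where
  irr i := by
    fin_cases i
    · exact irreducible_X
    · exact irrq
  deg i := by
    fin_cases i
    · show 0 < (X : ℤ[X]).natDegree
      rw [natDegree_X]
      norm_num
    · show 0 < (quad 1 1 1).natDegree
      rw [degq]
      norm_num
  lead i := by
    fin_cases i
    · show 0 < (X : ℤ[X]).leadingCoeff
      rw [leadingCoeff_X]
      norm_num
    · show 0 < (quad 1 1 1).leadingCoeff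
      rw [quad_lead 1 1 1 one_ne_zero]
      norm_num
  inj i j h := by
    fin_cases i <;> fin_cases j
    · rfl
    · exfalso
      have h1 := congrArg natDegree (show (X : ℤ[X]) = quad 1 1 1 from h)
      rw [natDegree_X, degq] at h1
      omega
    · exfalso
      have h1 := congrArg natDegree (show quad 1 1 1 = (X : ℤ[X]) from h)
      rw [natDegree_X, degq] at h1
      omega
    · rfl
  adm p hp := by
    by_cases h3 : p = 3
    · refine ⟨2, fun i => ?_⟩
      rw [h3]
      fin_cases i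
      · show ¬ (3 : ℤ) ∣ (X : ℤ[X]).eval ((2 : ℕ) : ℤ)
        rw [eval_X]
        norm_num
      · show ¬ (3 : ℤ) ∣ (quad 1 1 1).eval ((2 : ℕ) : ℤ)
        rw [quad_eval]
        norm_num
    · refine ⟨1, fun i => ?_⟩
      fin_cases i
      · show ¬ (p : ℤ) ∣ (X : ℤ[X]).eval ((1 : ℕ) : ℤ)
        rw [eval_X]
        intro h
        exact hp.one_lt.ne' (Nat.dvd_one.1 (by exact_mod_cast h))
      · show ¬ (p : ℤ) ∣ (quad 1 1 1).eval ((1 : ℕ) : ℤ)
        rw [quad_eval]
        intro h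
        have h1 : p ∣ 3 := by
          have : (p : ℤ) ∣ ((3 : ℕ) : ℤ) := by
            refine h.trans (dvd_of_eq ?_)
            norm_num
          exact Int.natCast_dvd_natCast.1 this
        exact h3 ((Nat.prime_dvd_prime_iff_eq hp Nat.prime_three).1 h1)

lemma noTrF : NoTr F := by
  intro i j t ht h
  have hdeg : (F i).natDegree = (F j).natDegree := by
    rw [h, natDegree_comp, natDegree_X_add_C, mul_one]
  have hij : i = j := by
    fin_cases i <;> fin_cases j
    · rfl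
    · exfalso
      have h1 : (X : ℤ[X]).natDegree = (quad 1 1 1).natDegree := hdeg
      rw [natDegree_X, degq] at h1
      omega
    · exfalso
      have h1 : (quad 1 1 1).natDegree = (X : ℤ[X]).natDegree := hdeg
      rw [natDegree_X, degq] at h1
      omega
    · rfl
  subst hij
  exact no_self (F i) (sysF.deg i).ne' (t : ℤ) (by exact_mod_cast (by omega : t ≠ 0))
    (by rw [← h])

lemma roots_eq (p : ℕ) (hp : p.Prime) : roots p = nuB (Q F) p := by
  classical
  unfold roots nuB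
  apply card_iff
  intro r _
  exact (Q_iff p r hp).symm

lemma prop_eq (q : ℕ) : prop q = RD (Q F) q := by
  unfold prop RD
  exact Finset.prod_congr rfl fun p hp => by rw [roots_eq p (Nat.prime_of_mem_primeFactors hp)]

lemma density_eq (X r q : ℕ) :
    density X r q = Vq (Qn (Q F) q) ⌊(X : ℝ) ^ (1 / (r : ℝ))⌋₊ := by
  unfold density Vq
  rw [← Finset.filter_filter, Finset.prod_filter]
  unfold pz
  refine Finset.prod_congr rfl fun p hp => ?_
  by_cases hd : p ∣ q
  · rw [if_neg (by simpa using hd), nuB_Qn_dvd _ _ _ hd]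
    simp
  · rw [if_pos hd, nuB_Qn_not _ _ _ hd, roots_eq p (mem_filter.1 hp).2]

lemma series_eq (X r : ℕ) : series X r = SS (Q F) 2 ⌊(X : ℝ) ^ (1 / (r : ℝ))⌋₊ := by
  unfold series SS pz
  refine Finset.prod_congr rfl fun p hp => ?_
  rw [roots_eq p (mem_filter.1 hp).2]

lemma red_of (q a : ℕ) (h : Nat.Coprime (a * (a ^ 2 + a + 1)) q) : Red (Q F) q a := by
  intro p hp hpq hd
  have h1 := Nat.dvd_gcd ((Q_iff p a hp).1 hd) hpq
  rw [h] at h1
  exact hp.one_lt.ne' (Nat.dvd_one.1 h1)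

lemma good_iff (X r q a m : ℕ) : Good X r (q * m + a) ↔
    Sf (Q (fq F q a)) ⌊(X : ℝ) ^ (1 / (r : ℝ))⌋₊ m := by
  unfold Good Sf
  constructor
  · intro h p hp hd
    rw [fq_Q, Q_iff p _ (mem_pz.1 hp).2] at hd
    have h3 : (p : ℝ) ≤ (X : ℝ) ^ (1 / (r : ℝ)) := (Nat.le_floor_iff (by positivity)).1 (mem_pz.1 hp).1
    linarith [h p (mem_pz.1 hp).2 hd]
  · intro h p hp hd
    by_contra hlt
    exact h p (mem_pz.2 ⟨Nat.le_floor (not_lt.1 hlt), hp⟩) ((fq_Q F q a p m).2 ((Q_iff p _ hp).2 hd))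

open Classical in
/-- **Almost primes `n` with `n ^ 2 + n + 1` almost prime in arithmetic progressions.** Let `A, θ > 0`.
The following holds for ALL moduli `q ≤ X ^ A`, all classes `a` with `a (a ^ 2 + a + 1)` prime to `q` and
all large `X`, for the good terms `n = q m + a` (all prime factors of `n` and `n ^ 2 + n + 1` are larger
than `X ^ (1 / r)`), with `V = density X r q`.

(1) For all `ε > 0`, `x₀`, `l₀` and all `r ≥ r₀`: every interval `Z < m ≤ Z + Y` with `Y ≥ X ^ θ` contains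
`Y V` good terms up to the factor `1 ± ε`, and the number of those, for which fewer than `l` of the `T`
preceding terms are good, is `Y V` times the probability that a Poisson variable of mean `T V` is less than
`l`, up to `ε Y V`, for all `T` if `l ≤ l₀`, and for all `l` if `T V ≤ x₀`.

(2) For all `r ≥ r₀` and any set `S` of good terms, for example all the primes `n` with `n ^ 2 + n + 1`
prime, all but `ε Y V` of the elements of `S` in any interval `(u, u + Y]`, `X ^ θ ≤ Y ≤ X`, `Y ≤ u`, are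
regular points of `S`.

(3) The density: `V * prop q * log ^ 2 X` is `(r exp (-γ)) ^ 2` times the truncated constant `2 H` of
Bateman and Stemmler, asymptotically, uniformly in all `q ≤ X ^ A`.

(4) Primes `n > X ^ (1 / r)` with `n ^ 2 + n + 1` prime are good. -/
theorem result (A θ : ℝ) (hA : 0 < A) (hθ : 0 < θ) :
    (∀ (x₀ ε : ℝ) (l₀ : ℕ), 0 < ε → ∃ r₀ : ℕ, 2 ≤ r₀ ∧ ∀ r : ℕ, r₀ ≤ r → ∀ᶠ X : ℕ in atTop,
      ∀ q a : ℕ, 1 ≤ q → (q : ℝ) ≤ (X : ℝ) ^ A → (a : ℝ) ≤ (X : ℝ) ^ A →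
      Nat.Coprime (a * (a ^ 2 + a + 1)) q → ∀ Z Y : ℕ, (X : ℝ) ^ θ ≤ Y →
      |(((Ioc Z (Z + Y)).filter (fun m => Good X r (q * m + a))).card : ℝ) - Y * density X r q| ≤
        ε * (Y * density X r q) ∧
      ∀ l T : ℕ, (l ≤ l₀ ∨ T * density X r q ≤ x₀) →
        |(((Ioc Z (Z + Y)).filter (fun m => Good X r (q * m + a) ∧
            ((Ico (m - T) m).filter (fun m' => Good X r (q * m' + a))).card < l)).card : ℝ) -
          Y * density X r q * ∑ j ∈ range l, poisson (T * density X r q) j| ≤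
          ε * (Y * density X r q)) ∧
    (∃ r₀ : ℕ, 2 ≤ r₀ ∧ ∀ r : ℕ, r₀ ≤ r → ∀ ε : ℝ, 0 < ε → ∃ c : ℝ, 0 < c ∧ ∀ δ : ℝ, 0 < δ →
      ∃ B₁ : ℕ, ∀ᶠ X : ℕ in atTop, ∀ q a : ℕ, 1 ≤ q → (q : ℝ) ≤ (X : ℝ) ^ A → (a : ℝ) ≤ (X : ℝ) ^ A →
      Nat.Coprime (a * (a ^ 2 + a + 1)) q →
      ∀ u Y : ℕ, (X : ℝ) ^ θ ≤ Y → Y ≤ X → Y ≤ u → ∀ S : Set ℕ, (∀ m ∈ S, Good X r (q * m + a)) →
      (count (Irregular S (1 / density X r q) c δ B₁ Y) u (u + Y) : ℝ) ≤
        ε * (Y * density X r q)) ∧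
    (∀ (r : ℕ) (ε : ℝ), 2 ≤ r → 0 < ε → ∀ᶠ X : ℕ in atTop, ∀ q : ℕ, 1 ≤ q → (q : ℝ) ≤ (X : ℝ) ^ A →
      |density X r q * prop q * Real.log X ^ 2 -
        (r * Real.exp (-Real.eulerMascheroniConstant)) ^ 2 * series X r| ≤ ε * series X r) ∧
    (∀ X r n : ℕ, n.Prime → (n ^ 2 + n + 1).Prime → (X : ℝ) ^ (1 / (r : ℝ)) < n → Good X r n) := by
  refine ⟨?_, ?_, ?_, ?_⟩
  · intro x₀ ε l₀ hε
    obtain ⟨r0, hr0, h⟩ := gap_prog F sysF noTrF one_le_two A θ hA hθ (max l₀ 1) x₀ ε hε
    refine ⟨r0, hr0, fun r hr => ?_⟩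
    filter_upwards [h r hr 1] with X hX
    intro q a hq hqX haX ha Z Y hY
    have hgap' : ∀ l T : ℕ, (l ≤ max l₀ 1 ∨ T * density X r q ≤ x₀) →
        |(((Ioc Z (Z + Y)).filter (fun m => Good X r (q * m + a) ∧
            ((Ico (m - T) m).filter (fun m' => Good X r (q * m' + a))).card < l)).card : ℝ) -
          Y * density X r q * ∑ j ∈ range l, poisson (T * density X r q) j| ≤
          ε * (Y * density X r q) := by
      intro l T hl
      rw [density_eq] at hl ⊢
      have h3 := hX q a hq hqX haX (red_of q a ha) (Or.inl le_rfl) Z Y hY l T hl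
      have h4 : Pk (Sf (Q (fq F q a)) ⌊(X : ℝ) ^ (1 / (r : ℝ))⌋₊) l T Z Y =
          ((Ioc Z (Z + Y)).filter (fun m => Good X r (q * m + a) ∧
            ((Ico (m - T) m).filter (fun m' => Good X r (q * m' + a))).card < l)).card := by
        unfold Pk
        apply card_iff
        intro n _
        rw [good_iff]
        have h5 : ((Ico (n - T) n).filter (Sf (Q (fq F q a)) ⌊(X : ℝ) ^ (1 / (r : ℝ))⌋₊)).card =
            ((Ico (n - T) n).filter (fun m' => Good X r (q * m' + a))).card := by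
          apply card_iff
          intro m _
          rw [good_iff]
        rw [h5]
      rw [h4] at h3
      exact h3
    refine ⟨?_, fun l T hl => hgap' l T (hl.imp_left fun h => h.trans (le_max_left _ _))⟩
    have h3 := hgap' 1 0 (Or.inl (le_max_right _ _))
    have h4 : ((Ioc Z (Z + Y)).filter (fun m => Good X r (q * m + a) ∧
          ((Ico (m - 0) m).filter (fun m' => Good X r (q * m' + a))).card < 1)).card =
        ((Ioc Z (Z + Y)).filter (fun m => Good X r (q * m + a))).card := by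
      apply card_iff
      intro n _
      simp
    rw [h4] at h3
    simpa [poisson] using h3
  · obtain ⟨r0, hr0, h⟩ := her_prog F sysF noTrF one_le_two A θ hA hθ
    refine ⟨r0, hr0, fun r hr ε hε => ?_⟩
    obtain ⟨c, hc, h1⟩ := h r hr 1 ε hε
    refine ⟨c, hc, fun δ hδ => ?_⟩
    obtain ⟨B1, h2⟩ := h1 δ hδ
    refine ⟨B1, ?_⟩
    filter_upwards [h2] with X hX
    intro q a hq hqX haX ha u Y hY hYX hYu S hS
    rw [density_eq]
    exact hX q a hq hqX haX (red_of q a ha) (Or.inl le_rfl) u Y hY hYX hYu S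
      (fun m hm => (good_iff X r q a m).1 (hS m hm))
  · intro r ε hr hε
    obtain ⟨c, hc, hper⟩ := exists_c F sysF
    filter_upwards [mean_gen c 2 A hA r hr ε hε] with X hX
    intro q hq hqX
    have h := hX (Q F) q hper (sys_adm F sysF) hq hqX
    rw [← density_eq, ← prop_eq, ← series_eq] at h
    exact h
  · intro X r n hp1 hp2 hX p hpp hd
    rcases hpp.dvd_mul.1 hd with h | h
    · rw [(Nat.prime_dvd_prime_iff_eq hpp hp1).1 h]
      exact hX
    · rw [(Nat.prime_dvd_prime_iff_eq hpp hp2).1 h]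
      push_cast
      have : (0 : ℝ) ≤ n := Nat.cast_nonneg n
      nlinarith

end Pool.Agent.Results.MP_82233c_nt.GapLawsInProgressions
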