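import Pool.Agent.X15.SysS.Clu

/-!
# Primes `p` in clusters of primes with `p² + p + t` prime, for most constants `t`

For all but an arbitrarily small proportion of the integers `t ≤ x²` without local obstruction, at least
`c x / (log x)²` primes `p ≤ x` make `p² + p + t` prime and have at least `m` other primes at distance at most `ε log p`;
`m` is arbitrarily large and `ε` arbitrarily small. The same for several constants at once.

The theorem rests on the library development Pool.Agent.TH882 (primes with several close neighbours are dense in most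
reduced classes).
-/

set_option autoImplicit false

open Finset Filter Topology

namespace Pool.Agent.Results.MP_82233c_nt.MostConstantsInClusters

/-- `p` is a prime, and there are at least `m` other primes at distance at most `R` from `p`. -/
def Clustered (m : ℕ) (R : ℝ) (p : ℕ) : Prop :=
  p.Prime ∧ m ≤ {q : ℕ | q.Prime ∧ q ≠ p ∧ |(q : ℝ) - p| ≤ R}.ncard

/-- No local obstruction: for every prime `l` there is an integer `y` such that `l` divides neither `y` nor any
`y² + y + t_j`. -/
def Admissible {r : ℕ} (t : Fin r → ℕ) : Prop :=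
  ∀ l : ℕ, l.Prime → ∃ y : ℤ, ¬ (l : ℤ) ∣ y ∧ ∀ j, ¬ (l : ℤ) ∣ y ^ 2 + y + t j

/-- The primes `p ≤ x` with at least `m` other primes at distance at most `ε log p` for which all `p² + p + t_j` are
prime. -/
def solutions {r : ℕ} (m : ℕ) (ε : ℝ) (t : Fin r → ℕ) (x : ℕ) : Set ℕ :=
  {p : ℕ | p ≤ x ∧ Clustered m (ε * Real.log p) p ∧ ∀ j, (p ^ 2 + p + t j).Prime}

/-- The admissible vectors of positive integers `t_j ≤ x²` with fewer than `c x / (log x) ^ (r + 1)` such primes. -/
def exceptions (r m : ℕ) (ε c : ℝ) (x : ℕ) : Set (Fin r → ℕ) :=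
  {t : Fin r → ℕ | (∀ j, 1 ≤ t j ∧ t j ≤ x ^ 2) ∧ Admissible t ∧
    ((solutions m ε t x).ncard : ℝ) < c * (x / Real.log x ^ (r + 1))}

lemma deg_aux : ((Polynomial.X : Polynomial ℤ) ^ 2 + Polynomial.X).natDegree = 2 := by
  have h : ((Polynomial.X : Polynomial ℤ) ^ 2 + Polynomial.X) =
      Polynomial.C 1 * Polynomial.X ^ 2 + Polynomial.C 1 * Polynomial.X + Polynomial.C 0 := by simp
  rw [h]
  exact Polynomial.natDegree_quadratic one_ne_zero

lemma lead_aux : ((Polynomial.X : Polynomial ℤ) ^ 2 + Polynomial.X).leadingCoeff = 1 := by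
  have h : ((Polynomial.X : Polynomial ℤ) ^ 2 + Polynomial.X) =
      Polynomial.C 1 * Polynomial.X ^ 2 + Polynomial.C 1 * Polynomial.X + Polynomial.C 0 := by simp
  rw [h]
  exact Polynomial.leadingCoeff_quadratic one_ne_zero

/-- **Prime values of `p² + p + t` at primes in clusters, for most `t`.** Let `r`, `m ≥ 0` and `ε, κ > 0`. There are `c > 0`
and `x₀` such that for all `x ≥ x₀` and all admissible vectors `(t_1, ..., t_r)` of positive integers `t_j ≤ x²`, with at
most `κ x ^ (2 r)` exceptions, at least `c x / (log x) ^ (r + 1)` primes `p ≤ x` make all the numbers `p² + p + t_j` prime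
and have at least `m` other primes at distance at most `ε log p` from `p`. -/
theorem result (r m : ℕ) (ε κ : ℝ) (hε : 0 < ε) (hκ : 0 < κ) : ∃ c : ℝ, 0 < c ∧ ∃ x₀ : ℕ,
    ∀ x : ℕ, x₀ ≤ x → ((exceptions r m ε c x).ncard : ℝ) ≤ κ * (x : ℝ) ^ (2 * r) := by
  classical
  obtain ⟨c, hc, x₀, h⟩ := Pool.Agent.X15.SysS.clu_sys (fun _ : Fin r => (1 : ℤ))
    (fun _ => Or.inl rfl) (fun _ => Polynomial.X ^ 2 + Polynomial.X) (fun _ => by rw [deg_aux]; norm_num)
    (fun _ => by rw [lead_aux]; norm_num) m ε hε 1 κ hκ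
  refine ⟨c, hc, x₀, fun x hx => ?_⟩
  have h1 := h x hx
  have e0 : ∏ j : Fin r, (x : ℝ) ^ ((Polynomial.X : Polynomial ℤ) ^ 2 + Polynomial.X).natDegree =
      (x : ℝ) ^ (2 * r) := by
    rw [deg_aux, prod_const, card_univ, Fintype.card_fin, ← pow_mul]
  rw [e0] at h1
  refine le_trans ?_ h1
  apply Nat.cast_le.2
  rw [← Set.ncard_coe_finset]
  apply Set.ncard_le_ncard _ (finite_toSet _)
  rintro k ⟨hk1, hk2, hk3⟩
  rw [mem_coe, mem_filter, Fintype.mem_piFinset]
  refine ⟨fun j => ?_, ?_, lt_of_le_of_lt ?_ hk3⟩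
  · rw [mem_Icc, deg_aux, one_mul]
    exact hk1 j
  · intro l hl
    obtain ⟨y, hy1, hy2⟩ := hk2 l hl
    refine ⟨y, hy1, fun j hd => hy2 j ?_⟩
    rw [one_mul, Polynomial.eval_add, Polynomial.eval_pow, Polynomial.eval_X, add_comm] at hd
    exact hd
  · apply Nat.cast_le.2
    rw [← Set.ncard_coe_finset]
    apply Set.ncard_le_ncard _ ((Set.finite_Iic x).subset fun n hn => hn.1)
    intro q hq
    rw [mem_coe, mem_filter, mem_Icc] at hq
    obtain ⟨⟨hq1, hq2⟩, hq3, hq4⟩ := hq
    refine ⟨hq2, hq3, fun j => ?_⟩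
    have h5 := hq4 j
    rw [one_mul, Polynomial.eval_add, Polynomial.eval_pow, Polynomial.eval_X] at h5
    have h6 : ((k j : ℤ) + ((q : ℤ) ^ 2 + q)).toNat = q ^ 2 + q + k j := by
      have : ((k j : ℤ) + ((q : ℤ) ^ 2 + q)) = ((q ^ 2 + q + k j : ℕ) : ℤ) := by push_cast; ring
      rw [this, Int.toNat_natCast]
    rwa [h6] at h5

end Pool.Agent.Results.MP_82233c_nt.MostConstantsInClusters
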