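import Pool.Agent.X119.Dig
import Pool.Agent.Y532.QuadOne

set_option autoImplicit false

/-!
# Almost primes `n` with `n ^ 2 + n + 1` almost prime and with restricted digits

There are `c > 0` and `r₀` such that for all `r ≥ r₀`, all bases `b` and all large `K` the following
holds for ALL choices of sets `A 0, ..., A (K - 1)` of digits with `∏ |A i| ≥ exp (- c K) b ^ K`: the
integers `n < b ^ K` whose `i`-th digit belongs to `A i` for all `i < K`, such that `n` and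
`n ^ 2 + n + 1` have at most `r` prime factors, all larger than `n ^ (1 / r)`, have the expected order
`∏ |A i| / K ^ 2` (if the last digit can be chosen without a common factor with the base), and at
most `C ∏ |A i| / K ^ 2` of the integers with these digits are primes `n` with `n ^ 2 + n + 1` prime.
-/

namespace Pool.Agent.Results.MP_82233c_nt.PrescribedDigits

open Finset Filter
open Pool.Agent.Y816.PD (NA ND)

/-- `n` and `n ^ 2 + n + 1` have at most `r` prime factors (with multiplicity), all of them larger than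
`n ^ (1 / r)`. -/
def Almost (r : ℕ) : Set ℕ :=
  {n | (∀ p : ℕ, p.Prime → (p ∣ n ∨ p ∣ n ^ 2 + n + 1) → (n : ℝ) ^ (1 / (r : ℝ)) < (p : ℝ)) ∧
    n.primeFactorsList.length ≤ r ∧ (n ^ 2 + n + 1).primeFactorsList.length ≤ r}

/-- The primes of the problem. -/
def S : Set ℕ := {n | n.Prime ∧ (n ^ 2 + n + 1).Prime}

lemma dvd_iff {m p : ℕ} : (p : ℤ) ∣ 1 * (m : ℤ) ^ 2 + 1 * m + 1 ↔ p ∣ m ^ 2 + m + 1 := by
  rw [Pool.Agent.Y532.val_eq]
  exact Int.natCast_dvd_natCast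

/-- **Restricted digits.** -/
theorem result :
    ∃ c : ℝ, 0 < c ∧ ∃ r₀ : ℕ, 2 ≤ r₀ ∧ ∀ r : ℕ, r₀ ≤ r → ∀ b : ℕ, 2 ≤ b → ∃ κ C : ℝ, 0 < κ ∧ 0 < C ∧
      ∀ᶠ K : ℕ in atTop, ∀ A : ℕ → Finset ℕ, (∀ i < K, A i ⊆ range b) →
        (b : ℝ) ^ K ≤ Real.exp (c * K) * NA K A →
        ((∃ d ∈ A 0, (d * (d ^ 2 + d + 1)).Coprime b) →
          κ * NA K A / (K : ℝ) ^ 2 ≤ ND b K A (Almost r)) ∧
        (ND b K A S : ℝ) ≤ C * NA K A / (K : ℝ) ^ 2 := by
  obtain ⟨c, hc, r₀, hr₀, h⟩ := Pool.Agent.Y816.PD.digits_quadX 1 1 1 (by norm_num)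
    Pool.Agent.Y532.hg1 Pool.Agent.Y532.hD1 Pool.Agent.Y532.hadm1
    (fun r => {m | (∀ p : ℕ, p.Prime → p ∣ m → (m : ℝ) ^ (1 / (r : ℝ)) < (p : ℝ)) ∧
      ∀ p : ℕ, p.Prime → (p : ℤ) ∣ 1 * (m : ℤ) ^ 2 + 1 * m + 1 → (m : ℝ) ^ (1 / (r : ℝ)) < (p : ℝ)})
    Almost (fun r m _ h => h)
    (fun r m hr h1 h2 h3 h4 => by
      rw [Pool.Agent.Y532.val_eq, Int.natAbs_natCast] at h4
      refine ⟨?_, h3, h4⟩
      rintro p hp (hd | hd)
      · exact h1 p hp hd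
      · exact h2 p hp (dvd_iff.2 hd))
    (fun b d => (d * (d ^ 2 + d + 1)).Coprime b)
    (fun b d hb h p hp hpb => by
      have h1 : ¬ p ∣ d * (d ^ 2 + d + 1) := fun hd => by
        have h2 := Nat.dvd_gcd hd hpb
        rw [h] at h2
        exact hp.one_lt.ne' (Nat.dvd_one.1 h2)
      exact ⟨fun hd => h1 (Dvd.dvd.mul_right hd _), fun hd => h1 (Dvd.dvd.mul_left (dvd_iff.1 hd) _)⟩)
  refine ⟨c, hc, r₀, hr₀, fun r hr b hb => ?_⟩
  obtain ⟨κ, C, hκ, hC, h1⟩ := h r hr b hb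
  refine ⟨κ, C, hκ, hC, ?_⟩
  filter_upwards [h1] with K hK A hA hprod
  obtain ⟨h2, h3⟩ := hK A hA hprod
  refine ⟨h2, (Pool.Agent.X119.Dig.nd_mono b K A ?_).trans h3⟩
  rintro n ⟨hn1, hn2⟩
  have hr2 : 2 ≤ r := hr₀.trans hr
  exact ⟨fun p hp hd => Pool.Agent.X119.Dig.prime_rough hr2 hn1.two_le hn1 le_rfl hp hd,
    fun p hp hd => Pool.Agent.X119.Dig.prime_rough hr2 hn1.two_le hn2 (by omega) hp (dvd_iff.1 hd)⟩

end Pool.Agent.Results.MP_82233c_nt.PrescribedDigits
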